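import Pool.Agent.Lib.DM.PI.Asm

/-!
# THEOREM DM, Part I (helper55): the inert case

`thmDM_of`: Theorem DM (3 inert) from the statements of the other parts.
-/

set_option autoImplicit false

open scoped Pointwise

noncomputable section

namespace Pool.Agent.DM.PI

open Pool.Agent.MuZ Pool.Agent.DM Pool.Agent.DN
open Pool.Agent.DI.PI (Reps HypI Meas tr)
open Pool.Agent.DS.PI (RCF HypJ)

/-- `XFinGen` for the field `K`. -/
theorem xK (k t : ℕ) [Nsp k t] : XFinGen 3 (cyc 3 (KQ k t)) :=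
  (pKQ0 DT.PI.pSqr Pool.Agent.FW.fwa k t).2

/-- **The result for the fields `Lf k t f`** (inert case), from the statements of the other parts. -/
theorem sI_of (i : InG) (G : S_G) : S_I := by
  intro k t _ f hf
  obtain ⟨⟨P, hAb⟩, hP2⟩ := pExP
  obtain ⟨h3, hN, -⟩ := hP2 P hAb
  obtain ⟨-, hKL, -⟩ := pLK0 pCg pAr3 pPs pGalI k t (i.bas k t) f hf
  refine lf_of i k t f hf (KQ k t) le_rfl hKL ?_ (xK k t) ⟨P, hN.1, by exact_mod_cast h3, ?_⟩
  · intro σ hσ x hx
    rw [(mem_fix (KQ k t) σ).1 hσ x hx]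
    exact hx
  · intro χb hmul hL hnt
    refine meas_of i k t f hf P hN.1 h3 χb hmul hL hnt ?_
    intro χ hχ _ m hm hmt
    obtain ⟨N0, h1, h2⟩ := G k t f m (fun a => (χ a : Om)) P hm hmt hχ hAb
    refine ⟨N0, h1, fun N hN' T hT D hD => ?_⟩
    obtain ⟨d, hd1, hd2, hd3⟩ := h2 N hN' T hT D hD
    exact ⟨P, d, hAb, hd1, hd2, hd3⟩

/-- **Theorem DM** (3 inert), from the statements of the other parts. -/
theorem thmDM_of (i : InG) (G : S_G) : ThmDM :=
  fun k t _ F hF hW => wf_of i k t (fun f hf => sI_of i G k t f hf) F hF hW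

end Pool.Agent.DM.PI
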