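import Pool.Agent.Lib.DM.PI.SpecC

set_option autoImplicit false

/-!
# THEOREM DM, Part I: the component does not vanish
-/

open scoped Pointwise

noncomputable section

namespace Pool.Agent.DM.PI

open Pool.Agent.MuZ Pool.Agent.DM Pool.Agent.DN
open Pool.Agent.DI (MP)
open Pool.Agent.DT (kap cbr)
open Pool.Agent.DI.PI (Reps)

private theorem ANv_three {P : Ideal ZZ} (h3 : (3 : ZZ) ∈ P) : (3 : ZZ ⧸ P) = 0 := by
  have h := Ideal.Quotient.eq_zero_iff_mem.2 h3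
  rwa [map_ofNat] at h

private theorem ANv_add {P : Ideal ZZ} (h3 : (3 : ZZ) ∈ P) (x y : ZMod 3) :
    (((x + y).val : ℕ) : ZZ ⧸ P) = ((x.val : ℕ) : ZZ ⧸ P) + ((y.val : ℕ) : ZZ ⧸ P) := by
  have h0 : (3 : ZZ ⧸ P) = 0 := ANv_three h3
  have h1 : (((3 * ((x.val + y.val) / 3) + (x.val + y.val) % 3 : ℕ)) : ZZ ⧸ P) =
      ((x.val + y.val : ℕ) : ZZ ⧸ P) := by
    rw [Nat.div_add_mod]
  rw [ZMod.val_add, ← Nat.cast_add, ← h1, Nat.cast_add, Nat.cast_mul, Nat.cast_ofNat, h0, zero_mul,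
    zero_add]

/-- The map `x ↦ x.val`. -/
private def ANv_hom (P : Ideal ZZ) (h3 : (3 : ZZ) ∈ P) : ZMod 3 →+ ZZ ⧸ P where
  toFun x := ((x.val : ℕ) : ZZ ⧸ P)
  map_zero' := by rw [ZMod.val_zero, Nat.cast_zero]
  map_add' x y := ANv_add h3 x y

private theorem ANv_sum {P : Ideal ZZ} (h3 : (3 : ZZ) ∈ P) {ι : Type} (s : Finset ι)
    (F : ι → ZMod 3) :
    (((∑ i ∈ s, F i).val : ℕ) : ZZ ⧸ P) = ∑ i ∈ s, (((F i).val : ℕ) : ZZ ⧸ P) :=
  map_sum (ANv_hom P h3) F s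

private theorem ANv_sub {P : Ideal ZZ} (h3 : (3 : ZZ) ∈ P) (x y : ZMod 3) :
    (((x - y).val : ℕ) : ZZ ⧸ P) = ((x.val : ℕ) : ZZ ⧸ P) - ((y.val : ℕ) : ZZ ⧸ P) :=
  map_sub (ANv_hom P h3) x y

theorem pANv : S_ANv := by
  intro hRpS hRpT hBInv hG3 k t _ hB f m P P' d T hD hPp h3P n hn1 hWG hVW hVL hHV hrel hconj hAA χb χ hmul
    hL hχ R' c D hR' hc hcinj hcD hnMP g hg hg1 R hR
  classical
  have hdom : IsDomain (ZZ ⧸ P) := Ideal.Quotient.isDomain P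
  have hM0 : 0 < f * 3 ^ (n + 1) := Nat.mul_pos hD.fm.pos (by positivity)
  -- step 1
  have hone : ∑ r ∈ R', (((bb f m d T n r).val : ℕ) : ZZ ⧸ P) * χb r ≠ 0 := by
    intro hsum
    apply hnMP
    have hDR : D = R'.image c := by
      ext a
      rw [hcD, Finset.mem_image]
    rw [hDR, Finset.sum_image fun r hr r' hr' h => hcinj r hr r' hr' h]
    set x : ZZ := ∑ r ∈ R', χ (c r) * ((kap (uN f (n + 1) m (T n) (c r)) d).val : ZZ) with hx
    have e1 : ∑ r ∈ R', (χ (c r) : Om) * ((kap (uN f (n + 1) m (T n) (c r)) d).val : Om) =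
        (x : Om) := by
      rw [hx]
      push_cast
      rfl
    rw [e1, DI.MP.coe_iff, ← Ideal.Quotient.eq_zero_iff_mem, hx, map_sum, ← hsum]
    refine Finset.sum_congr rfl fun r hr => ?_
    have hrG := hWG (hR'.mem r hr)
    rw [map_mul, map_natCast, ((hBInv hG3 k t hB f m P' d T hD n hn1 r hrG).2 (c r) (hc r hr)).2,
      mul_comm, hχ r hrG (c r) (hB.down _ _ (mdN hD.fm.toFok (by omega))
        (md3 hD.fm.toFok) (le3 (by omega)) _ _ (hc r hr))]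
  -- step 2
  have htwo : ∀ R : Finset Gal(Om/ℚ),
      Reps (Kn k t n).fixingSubgroup (Ln k t f (n + 1)).fixingSubgroup R →
      ∑ r ∈ R, (((AA f m d T n r).val : ℕ) : ZZ ⧸ P) * χb r =
        ∑ r ∈ R', (((bb f m d T n r).val : ℕ) : ZZ ⧸ P) * χb r := by
    intro R hR
    obtain ⟨S, hS⟩ := (hRpS Gal(Om/ℚ) _ _ _ hHV le_rfl).2.2 hrel
    obtain ⟨R'', hR'', hsum⟩ := (hRpS Gal(Om/ℚ) _ _ _ hVW hHV).2.1 R S hR hS
    have h3 := (hRpS Gal(Om/ℚ) _ _ _ (hHV.trans hVW) le_rfl).1 (ZZ ⧸ P)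
      (fun x => (((bb f m d T n x).val : ℕ) : ZZ ⧸ P) * χb x) (by
        intro y hy h hh
        change (((bb f m d T n (y * h)).val : ℕ) : ZZ ⧸ P) * χb (y * h) =
          (((bb f m d T n y).val : ℕ) : ZZ ⧸ P) * χb y
        rw [(hBInv hG3 k t hB f m P' d T hD n hn1 y (hWG hy)).1 h hh,
          hmul y (hWG hy) h (hWG (hVW (hHV hh))), hL h (hVL (hHV hh)), mul_one]) R'' R' hR'' hR'
    rw [← h3, hsum]
    refine Finset.sum_congr rfl fun r hr => ?_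
    have hrG := hWG (hR.mem r hr)
    rw [(hAA r hrG).1 S hS, ANv_sum h3P, Finset.sum_mul]
    refine Finset.sum_congr rfl fun s hs => ?_
    have hsV := hS.mem s hs
    rw [hmul r hrG s (hWG (hVW hsV)), hL s (hVL hsV), mul_one]
  -- step 3
  have hgG := hWG hg
  obtain ⟨R₂, hR₂, hsum₂⟩ := (hRpT Gal(Om/ℚ) (Kn k t n).fixingSubgroup
    (Ln k t f (n + 1)).fixingSubgroup hVW).2.2.2 g⁻¹ (inv_mem hg) (fun x => by
      constructor
      · intro hx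
        exact hconj g⁻¹ (inv_mem hgG) x hx
      · intro hx
        have h3 := hconj g hgG _ hx
        have h4 : g * (g⁻¹ * x * g⁻¹⁻¹) * g⁻¹ = x := by group
        rwa [h4] at h3) R hR
  have hthree : ∑ r ∈ R, (((AA f m d T n (r * g⁻¹)).val : ℕ) : ZZ ⧸ P) * χb r =
      (∑ r ∈ R', (((bb f m d T n r).val : ℕ) : ZZ ⧸ P) * χb r) * χb g := by
    rw [← htwo R₂ hR₂, hsum₂ (ZZ ⧸ P) (fun r => (((AA f m d T n r).val : ℕ) : ZZ ⧸ P) * χb r),
      Finset.sum_mul]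
    refine Finset.sum_congr rfl fun r hr => ?_
    have h3 : χb r = χb (r * g⁻¹) * χb g := by
      rw [← hmul _ (mul_mem (hWG (hR.mem r hr)) (inv_mem hgG)) g hgG, inv_mul_cancel_right]
    rw [h3, mul_assoc]
  have hfin : ∑ r ∈ R, (((aG f m d T g n r).val : ℕ) : ZZ ⧸ P) * χb r =
      (∑ r ∈ R', (((bb f m d T n r).val : ℕ) : ZZ ⧸ P) * χb r) * (χb g - 1) := by
    rw [mul_sub, mul_one, ← hthree, ← htwo R hR]
    rw [← Finset.sum_sub_distrib]
    refine Finset.sum_congr rfl fun r _ => ?_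
    unfold aG
    rw [ANv_sub h3P, sub_mul]
  intro h0
  rw [hfin] at h0
  rcases mul_eq_zero.1 h0 with h3 | h3
  · exact hone h3
  · exact hg1 (sub_eq_zero.1 h3)

end Pool.Agent.DM.PI
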