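import Pool.Agent.Lib.DM.PI.Top
import Pool.Agent.Lib.DM.G.AllZ
import Pool.Agent.Lib.DM.H3.AllZ
import Pool.Agent.Lib.DS.E.AllZ

/-!
# THEOREM DM, Part I (helper55): the hypotheses `InG` without hypotheses

`tDM_of : S_G → ThmDM`.
-/

set_option autoImplicit false

noncomputable section

namespace Pool.Agent.DM.PI

open Pool.Agent.MuZ Pool.Agent.DN

/-- The statements of the other parts. -/
theorem zInG : InG where
  R1 := DS.zR1
  E1 := DS.zE1
  E6 := DS.zE6
  E7 := DS.zE7
  E8 := DS.zE8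
  GR := G.zGR
  GM := G.zGM
  G3 := G.zG3
  H := H3.zH

/-- **Theorem DM** from Part G. -/
theorem tDM_of (G : S_G) : ThmDM := thmDM_of zInG G

end Pool.Agent.DM.PI
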