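import Pool.Agent.Lib.DM.PI.SpecC

/-!
# THEOREM DM, Part I: Chinese remainder and surjectivity of the norm

Edit of `DK/PI/Ar2.lean` (helper69).
-/

set_option autoImplicit false

open scoped Pointwise

namespace Pool.Agent.DM.PI

open Pool.Agent.MuZ Pool.Agent.DM Pool.Agent.DN

private theorem Ar2_crt {k t : ℕ} (f N : ℕ) (a b : OO k t) (hf : f.Coprime 3) :
    ∃ v : OO k t, (f : OO k t) ∣ v - a ∧ ((3 ^ N : ℕ) : OO k t) ∣ v - b := by
  have h1 : f.Coprime (3 ^ N) := Nat.Coprime.pow_right N hf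
  obtain ⟨x, y, hxy⟩ : IsCoprime (f : OO k t) ((3 ^ N : ℕ) : OO k t) := Nat.Coprime.cast h1
  refine ⟨a * y * ((3 ^ N : ℕ) : OO k t) + b * x * (f : OO k t), ⟨x * (b - a), ?_⟩,
    ⟨y * (a - b), ?_⟩⟩
  · linear_combination a * hxy
  · linear_combination b * hxy

private theorem Ar2_unit (N : ℕ) (s : ZMod (3 ^ N)) : IsUnit (1 + 3 * s) := by
  apply IsNilpotent.isUnit_one_add
  have h2 : IsNilpotent (3 : ZMod (3 ^ N)) := by
    refine ⟨N, ?_⟩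
    have h := ZMod.natCast_self (3 ^ N)
    rw [Nat.cast_pow] at h
    exact_mod_cast h
  exact (Commute.all _ _).isNilpotent_mul_right h2

private theorem Ar2_surj (N : ℕ) (c : ℤ) : ∃ y : ℤ, (3 : ℤ) ^ N ∣ 2 * y + 3 * y ^ 2 - c := by
  have hne : NeZero (3 ^ N) := ⟨pow_ne_zero _ three_ne_zero⟩
  have hinj : Function.Injective (fun y : ZMod (3 ^ N) => 2 * y + 3 * y ^ 2) := by
    intro y y' h
    have h1 : (y - y') * (1 + 3 * (-1 - (y + y'))) = 0 := by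
      have h2 : 2 * y + 3 * y ^ 2 = 2 * y' + 3 * y' ^ 2 := h
      linear_combination -h2
    have h3 := (Ar2_unit N _).mul_left_eq_zero.1 h1
    exact sub_eq_zero.1 h3
  have hsur := Finite.injective_iff_surjective.1 hinj
  obtain ⟨y0, hy0⟩ := hsur (c : ZMod (3 ^ N))
  obtain ⟨y, rfl⟩ := ZMod.intCast_surjective y0
  refine ⟨y, ?_⟩
  have h4 : ((2 * y + 3 * y ^ 2 - c : ℤ) : ZMod (3 ^ N)) = 0 := by
    have h5 : 2 * (y : ZMod (3 ^ N)) + 3 * (y : ZMod (3 ^ N)) ^ 2 = (c : ZMod (3 ^ N)) := hy0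
    push_cast at h5 ⊢
    linear_combination h5
  have h6 := (ZMod.intCast_zmod_eq_zero_iff_dvd _ _).1 h4
  rw [Nat.cast_pow] at h6
  exact h6

theorem pAr2 : S_Ar2 := by
  intro k t _
  refine ⟨Ar2_crt, ?_⟩
  intro f N c hf hc
  rcases Nat.eq_zero_or_pos N with hN0 | hN0
  · refine ⟨1, ?_, ?_⟩
    · rw [sub_self]
      exact dvd_zero _
    · rw [hN0, pow_zero]
      exact one_dvd _
  obtain ⟨M, rfl⟩ : ∃ M, N = M + 1 := ⟨N - 1, by omega⟩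
  obtain ⟨c', hc'⟩ := hc
  obtain ⟨y, m, hy⟩ := Ar2_surj M c'
  have hco : IsCoprime (f : ℤ) ((3 : ℤ) ^ (M + 1)) := by
    have h1 := Nat.isCoprime_iff_coprime.2 (Nat.Coprime.pow_right (M + 1) hf)
    push_cast at h1
    exact h1
  obtain ⟨x, z, hxz⟩ := hco
  -- `v = 1 + 3 y - 3 y z 3 ^ (M + 1)`
  have hv1 : (1 + 3 * y - 3 * y * z * 3 ^ (M + 1) : ℤ) - 1 = f * (3 * y * x) := by
    linear_combination (-3 * y) * hxz
  refine ⟨((1 + 3 * y - 3 * y * z * 3 ^ (M + 1) : ℤ) : OO k t), ?_, ?_⟩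
  · have h3 : ((3 * f : ℕ) : ℤ) ∣ (1 + 3 * y - 3 * y * z * 3 ^ (M + 1) : ℤ) - 1 := by
      rw [hv1]
      exact ⟨y * x, by push_cast; ring⟩
    obtain ⟨u, hu⟩ := h3
    refine ⟨(u : OO k t), ?_⟩
    have h4 : (((1 + 3 * y - 3 * y * z * 3 ^ (M + 1) : ℤ) - 1 : ℤ) : OO k t) =
        (((3 * f : ℕ) : ℤ) * u : ℤ) := by rw [hu]
    rw [Int.cast_sub, Int.cast_one, Int.cast_mul, Int.cast_natCast] at h4
    exact h4
  · have hNm : ∀ w : ℤ, Nm ((w : ℤ) : OO k t) = w ^ 2 := by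
      intro w
      simp [Nm]
    rw [hNm]
    refine ⟨m - 2 * (1 + 3 * y) * y * z * 3 + 9 * y ^ 2 * z ^ 2 * 3 ^ (M + 1), ?_⟩
    linear_combination 3 * hy - hc'

end Pool.Agent.DM.PI
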