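import Pool.Agent.Lib.DM.PI.SpecC
import Pool.Agent.Lib.DN.Ded

/-!
# Theorem DM, Part I, module Ar3: exponents
-/

set_option autoImplicit false

open scoped Pointwise nonZeroDivisors

noncomputable section

namespace Pool.Agent.DM.PI

open Pool.Agent.MuZ Pool.Agent.DM Pool.Agent.DN NumberField IsDedekindDomain
open Pool.Agent.DI (io ofC io_inj exists_io io_ofC ofC_io VP MP UP TP ex)
open Pool.Agent.DT (kap cbr)

variable {k t : ℕ}

private theorem Ar3_top [Nsp k t] (n : ℕ) : Gd n (⊤ : Ideal (OO k t)) :=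
  ⟨top_ne_bot, top_sup_eq _⟩

private theorem Ar3_pri_of_pow {n : ℕ} {i : ℕ} {a : Ideal (OO k t)} (hi : i ≠ 0)
    (h : PrI (a ^ i) n) : PrI a n := by
  unfold PrI at *
  rw [eq_top_iff, ← h]
  exact sup_le_sup_right (Ideal.pow_le_self hi) _

private theorem Ar3_gd_pow [Nsp k t] (hB : Bas k t) {n : ℕ} {a : Ideal (OO k t)} (h : Gd n a) (i : ℕ) :
    Gd n (a ^ i) := by
  induction i with
  | zero =>
    rw [pow_zero, Ideal.one_eq_top]
    exact Ar3_top n
  | succ i ih =>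
    rw [pow_succ]
    refine ⟨?_, (hB.pmul n _ _).2 ⟨ih.2, h.2⟩⟩
    have h1 : a ^ i * a ≠ 0 := mul_ne_zero (by simpa using ih.1) (by simpa using h.1)
    simpa using h1

private theorem Ar3_ray_pow [Nsp k t] (hB : Bas k t) {n : ℕ} (hn : Md n)
    {a b : Ideal (OO k t)} (h : Ray n a b) (i : ℕ) : Ray n (a ^ i) (b ^ i) := by
  induction i with
  | zero =>
    rw [pow_zero, pow_zero]
    exact hB.refl _ _ hn
  | succ i ih =>
    rw [pow_succ, pow_succ]
    exact hB.mul _ _ _ _ _ hn ih h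

private theorem Ar3_NI_pow [Nsp k t] (hB : Bas k t) (a : Ideal (OO k t)) (i : ℕ) :
    NI (a ^ i) = NI a ^ i := by
  induction i with
  | zero => rw [pow_zero, pow_zero, Ideal.one_eq_top, hB.top]
  | succ i ih => rw [pow_succ, pow_succ, hB.imul, ih]

/-- The class function and its powers. -/
private theorem Ar3_cls [Nsp k t] (hCg : S_Cg) (hB : Bas k t) {n : ℕ}
    (hn : Md n) : ∃ (C : Type) (_ : CommGroup C) (_ : Finite C) (c : Ideal (OO k t) → C),
      (∀ a : Ideal (OO k t), Gd n a → ∀ i : ℕ, c (a ^ i) = c a ^ i) ∧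
      ∀ a : Ideal (OO k t), Gd n a → (Ray n a ⊤ ↔ c a = 1) := by
  obtain ⟨C, i1, i2, c, h1, h2, -⟩ := hCg k t hB n hn
  have ht : c ⊤ = 1 := by
    have h := h1 ⊤ ⊤ (Ar3_top n) (Ar3_top n)
    rw [Ideal.mul_top] at h
    exact (mul_eq_left.1 h.symm)
  refine ⟨C, i1, i2, c, ?_, ?_⟩
  · intro a ha i
    induction i with
    | zero => rw [pow_zero, pow_zero, Ideal.one_eq_top, ht]
    | succ i ih => rw [pow_succ, pow_succ, h1 _ _ (Ar3_gd_pow hB ha i) ha, ih]
  · intro a ha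
    rw [← h2 a ⊤ ha (Ar3_top n), ht]

private theorem Ar3_pow3 {v : OO k t} (h : (3 : OO k t) ∣ v - 1) (i : ℕ) :
    (3 : OO k t) ^ (i + 1) ∣ v ^ 3 ^ i - 1 := by
  induction i with
  | zero => simpa using h
  | succ i ih =>
    obtain ⟨u, hu⟩ := ih
    have e : v ^ 3 ^ (i + 1) = (v ^ 3 ^ i) ^ 3 := by
      rw [← pow_mul, pow_succ]
    have e2 : v ^ 3 ^ i = 1 + 3 ^ (i + 1) * u := by
      linear_combination hu
    rw [e, e2]
    refine ⟨u + 3 ^ (i + 1) * u ^ 2 + 3 ^ (2 * i + 1) * u ^ 3, ?_⟩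
    ring

private theorem Ar3_dvd_mul {f n : ℕ} (hc : f.Coprime n) {v : OO k t} (h1 : (f : OO k t) ∣ v)
    (h2 : (n : OO k t) ∣ v) : ((f * n : ℕ) : OO k t) ∣ v := by
  obtain ⟨a1, b1⟩ := (nat_dvd_iff f v).1 h1
  obtain ⟨a2, b2⟩ := (nat_dvd_iff n v).1 h2
  have hc' : IsCoprime (f : ℤ) (n : ℤ) := Nat.isCoprime_iff_coprime.2 hc
  rw [nat_dvd_iff]
  push_cast
  exact ⟨hc'.mul_dvd a1 a2, hc'.mul_dvd b1 b2⟩

private theorem Ar3_cancel {R : Type} [CommRing R] [IsDomain R] {α α' : R} {B : Ideal R}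
    (hα : α ≠ 0) (h : Ideal.span {α} * B = Ideal.span {α'}) :
    ∃ v : R, α' = α * v ∧ B = Ideal.span {v} := by
  have h0 : α' ∈ Ideal.span {α} * B := by
    rw [h]
    exact Ideal.mem_span_singleton_self _
  obtain ⟨v, hvB, hv⟩ := Ideal.mem_span_singleton_mul.1 h0
  refine ⟨v, hv.symm, le_antisymm ?_ ?_⟩
  · intro x hx
    have h1 : α * x ∈ Ideal.span {α'} := by
      rw [← h]
      exact Ideal.mem_span_singleton_mul.2 ⟨x, hx, rfl⟩
    obtain ⟨c, hc⟩ := Ideal.mem_span_singleton'.1 h1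
    refine Ideal.mem_span_singleton'.2 ⟨c, mul_left_cancel₀ hα ?_⟩
    rw [← hv] at hc
    linear_combination hc
  · rw [Ideal.span_singleton_le_iff_mem]
    exact hvB

private theorem Ar3_fermat {x : ℤ} {j : ℕ} (h : (3 : ℤ) ∣ x ^ 3 ^ j - 1) : (3 : ℤ) ∣ x - 1 := by
  have : Fact (Nat.Prime 3) := ⟨Nat.prime_three⟩
  have h1 : ((x ^ 3 ^ j - 1 : ℤ) : ZMod 3) = 0 := (ZMod.intCast_zmod_eq_zero_iff_dvd _ 3).2 h
  have h2 : ((x - 1 : ℤ) : ZMod 3) = 0 := by
    push_cast at h1 ⊢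
    rwa [ZMod.pow_card_pow] at h1
  exact (ZMod.intCast_zmod_eq_zero_iff_dvd _ 3).1 h2

private theorem Ar3_three [Nsp k t] (hB : Bas k t) {f : ℕ} (hf : 0 < f) {a : Ideal (OO k t)}
    (h : H3 f a) (ha : Gd (3 * f) a) : (3 : ℤ) ∣ (NI a : ℤ) - 1 := by
  obtain ⟨j, hj⟩ := h
  have h3f : 0 < 3 * f := by positivity
  have h1 := hB.rnm (3 * f) _ _ h3f (Ar3_gd_pow hB ha (3 ^ j)).2 (Ar3_top _).2 hj
  rw [Ar3_NI_pow hB, hB.top] at h1
  push_cast at h1
  exact Ar3_fermat ((Dvd.intro _ rfl).trans h1)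

theorem pAr3 : S_Ar3 := by
  intro hCg k t _ hB
  constructor
  · intro f hfk
    have hf0 := hfk.pos
    have hf := hfk.cop
    have h3f : 0 < 3 * f := by positivity
    have hn : Md (3 * f) := md3 hfk
    obtain ⟨C, i1, i2, c, hcp, hc1⟩ := Ar3_cls (k := k) (t := t) hCg hB hn
    have hcard : Nat.card C ≠ 0 := Nat.card_pos.ne'
    obtain ⟨t', m, hmo, hcm⟩ := Nat.exists_eq_pow_mul_and_not_dvd hcard 3 (by decide)
    have hm3 : m.Coprime 3 := ((Nat.Prime.coprime_iff_not_dvd Nat.prime_three).2 hmo).symm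
    have hexp : ∀ x : C, x ^ (3 ^ t' * m) = 1 := fun x => by
      rw [← hcm]
      exact pow_card_eq_one'
    have hcop : ∀ a : Ideal (OO k t), H3 f a → a ≠ ⊥ ∧ PrI a (3 * f) := by
      rintro a ⟨j, hj⟩
      have h1 := hB.bot _ _ _ hn hj
      have h2 := hB.pri _ _ _ hn hj
      have hi : 3 ^ j ≠ 0 := by positivity
      refine ⟨?_, Ar3_pri_of_pow hi (h2.2 (Ar3_top _).2)⟩
      rintro rfl
      apply h1.2 top_ne_bot
      simp
    refine ⟨⟨m, hm3, ?_⟩, ?_, ⟨?_, hcop, ?_, ?_⟩, ?_, ?_⟩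
    · intro a ha
      refine ⟨t', ?_⟩
      rw [← pow_mul, hc1 _ (Ar3_gd_pow hB ha _), hcp a ha, mul_comm]
      exact hexp _
    · intro N hN
      refine ⟨t' + N, ?_⟩
      intro a ha h2
      have hM0 : 0 < f * 3 ^ N := by positivity
      have haf : Gd (3 * f) a := ⟨ha.1, (hB.pr3 hf0 hN a).1 ha.2⟩
      obtain ⟨j, hj⟩ := h2
      have hx1 : c a ^ 3 ^ j = 1 := by
        rw [← hcp a haf]
        exact (hc1 _ (Ar3_gd_pow hB haf _)).1 hj
      have hx2 : c a ^ 3 ^ t' = 1 := by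
        apply orderOf_dvd_iff_pow_eq_one.1
        have h3 : orderOf (c a) ∣ 3 ^ j := orderOf_dvd_of_pow_eq_one hx1
        have h4 : orderOf (c a) ∣ 3 ^ t' * m := orderOf_dvd_of_pow_eq_one (hexp _)
        have h5 : (orderOf (c a)).Coprime m :=
          Nat.Coprime.coprime_dvd_left h3 (Nat.Coprime.pow_left j hm3.symm)
        exact h5.dvd_of_dvd_mul_right h4
      have hBr : Ray (3 * f) (a ^ 3 ^ t') ⊤ := by
        rw [hc1 _ (Ar3_gd_pow hB haf _), hcp a haf]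
        exact hx2
      obtain ⟨α, α', hα, hα', hcα, -, hd, hsp⟩ := hBr
      rw [Ideal.mul_top] at hsp
      obtain ⟨v, hv', hBv⟩ := Ar3_cancel hα hsp
      have hv0 : v ≠ 0 := by
        rintro rfl
        rw [mul_zero] at hv'
        exact hα' hv'
      have hfv' : ((3 * f : ℕ) : OO k t) ∣ v - 1 := by
        have hcα' : Cop α (3 * f) := hcα
        obtain ⟨b, -, hb⟩ := cop_inv hcα'
        have h9 : ((3 * f : ℕ) : OO k t) ∣ α * (v - 1) := by
          have e : α * (v - 1) = -(α - α') := by rw [hv']; ring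
          rw [e]
          exact hd.neg_right
        have e : v - 1 = b * (α * (v - 1)) - (α * b - 1) * (v - 1) := by ring
        rw [e]
        exact dvd_sub (h9.mul_left b) (hb.mul_right _)
      have hfv : (f : OO k t) ∣ v - 1 :=
        (Nat.cast_dvd_cast (Dvd.intro_left 3 rfl)).trans hfv'
      have h3v' : (3 : OO k t) ∣ v - 1 := by
        have h9 : ((3 : ℕ) : OO k t) ∣ v - 1 :=
          (Nat.cast_dvd_cast (Dvd.intro f rfl)).trans hfv'
        rwa [Nat.cast_ofNat] at h9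
      have h3v : ((3 ^ N : ℕ) : OO k t) ∣ v ^ 3 ^ N - 1 := by
        have h13 := Ar3_pow3 h3v' N
        push_cast
        exact (pow_dvd_pow 3 (Nat.le_succ N)).trans h13
      have hfw : (f : OO k t) ∣ v ^ 3 ^ N - 1 := by
        refine hfv.trans ?_
        have := sub_dvd_pow_sub_pow v 1 (3 ^ N)
        rwa [one_pow] at this
      have hMw : ((f * 3 ^ N : ℕ) : OO k t) ∣ v ^ 3 ^ N - 1 :=
        Ar3_dvd_mul (Nat.Coprime.pow_right N hf) hfw h3v
      have hMw' : ((f * 3 ^ N : ℕ) : OO k t) ∣ 1 - v ^ 3 ^ N := by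
        rw [← neg_sub]
        exact hMw.neg_right
      have hw : a ^ 3 ^ (t' + N) = sp (v ^ 3 ^ N) := by
        rw [pow_add, pow_mul, hBv]
        exact Ideal.span_singleton_pow v (3 ^ N)
      rw [hw]
      refine ⟨1, v ^ 3 ^ N, one_ne_zero, pow_ne_zero _ hv0, cop_one _,
        cop_congr hMw' (cop_one (n := k) (t := t) (f * 3 ^ N)), hMw', ?_⟩
      have e1 : sp (1 : OO k t) = ⊤ := Ideal.span_singleton_one
      rw [Ideal.mul_top, e1, Ideal.top_mul]
    · refine ⟨0, ?_⟩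
      rw [pow_zero, pow_one]
      exact hB.refl _ _ hn
    · rintro a a' ⟨j, hj⟩ haa
      exact ⟨j, hB.trans _ _ _ _ hn (hB.symm _ _ _ hn (Ar3_ray_pow hB hn haa _)) hj⟩
    · rintro a a' ⟨j, hj⟩ ⟨j', hj'⟩
      refine ⟨j + j', ?_⟩
      have e : (a * a') ^ 3 ^ (j + j') = (a ^ 3 ^ j) ^ 3 ^ j' * (a' ^ 3 ^ j') ^ 3 ^ j := by
        rw [mul_pow, ← pow_mul, ← pow_mul, pow_add, mul_comm (3 ^ j') (3 ^ j)]
      have h1 := Ar3_ray_pow hB hn hj (3 ^ j')
      have h2 := Ar3_ray_pow hB hn hj' (3 ^ j)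
      have h3 := hB.mul _ _ _ _ _ hn h1 h2
      rw [← Ideal.one_eq_top, one_pow, one_pow, one_mul, Ideal.one_eq_top] at h3
      rw [e]
      exact h3
    · intro a ha
      exact Ar3_three hB hf0 ha (hcop a ha)
    · intro N hN
      funext a
      apply propext
      constructor
      · rintro ⟨h1, h2⟩
        exact ⟨h1, Or.inl h2⟩
      · rintro ⟨h1, h2 | h2⟩
        · exact ⟨h1, h2⟩
        · exfalso
          have h3 := Ar3_three hB hf0 h1 (hcop a h1)
          have h4 : (3 : ℤ) ∣ (NI a : ℤ) + 1 := (dvd_pow_self 3 (by omega)).trans h2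
          omega
  · intro n H hn hH a ha
    obtain ⟨C, i1, i2, c, hcp, hc1⟩ := Ar3_cls (k := k) (t := t) hCg hB hn
    have hpow : ∀ i : ℕ, H (a ^ i) := by
      intro i
      induction i with
      | zero =>
        rw [pow_zero, Ideal.one_eq_top]
        exact hH.top
      | succ i ih =>
        rw [pow_succ]
        exact hH.mul _ _ ih ha
    have hcard : 0 < Nat.card C := Nat.card_pos
    refine ⟨a ^ (Nat.card C - 1), hpow _, ?_⟩
    have hga : Gd n a := hH.cop a ha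
    have e : a * a ^ (Nat.card C - 1) = a ^ Nat.card C := by
      rw [← pow_succ', Nat.sub_add_cancel hcard]
    rw [e, hc1 _ (Ar3_gd_pow hB hga _), hcp a hga]
    exact pow_card_eq_one'

end Pool.Agent.DM.PI
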