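import Pool.Agent.Lib.DM.PI.SpecC

/-!
# Theorem DM, Part I, module Cg: the ray class group as a finite commutative group

Edit of `DK/PI/Cg.lean` (helper69).
-/

set_option autoImplicit false

open scoped Pointwise nonZeroDivisors

noncomputable section

namespace Pool.Agent.DM.PI

open Pool.Agent.MuZ Pool.Agent.DM Pool.Agent.DN NumberField IsDedekindDomain

/-- The monoid of the ideals prime to `n`. -/
private def Cg_T {k t : ℕ} (n : ℕ) (h1 : Gd n (⊤ : Ideal (OO k t)))
    (hm : ∀ a b : Ideal (OO k t), Gd n a → Gd n b → Gd n (a * b)) :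
    Submonoid (Ideal (OO k t)) where
  carrier := {a | Gd n a}
  mul_mem' := fun {a b} ha hb => hm a b ha hb
  one_mem' := by
    change Gd n (1 : Ideal (OO k t))
    rw [Ideal.one_eq_top]
    exact h1

/-- The ray class relation as a congruence relation. -/
private def Cg_con {k t : ℕ} (n : ℕ) (T : Submonoid (Ideal (OO k t)))
    (r1 : ∀ a : Ideal (OO k t), Ray n a a) (r2 : ∀ a b : Ideal (OO k t), Ray n a b → Ray n b a)
    (r3 : ∀ a b c : Ideal (OO k t), Ray n a b → Ray n b c → Ray n a c)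
    (r4 : ∀ a b c d : Ideal (OO k t), Ray n a b → Ray n c d → Ray n (a * c) (b * d)) : Con T where
  r a b := Ray n a.1 b.1
  iseqv := ⟨fun a => r1 a.1, fun {a b} h => r2 a.1 b.1 h, fun {a b c} h h' => r3 a.1 b.1 c.1 h h'⟩
  mul' := fun {a b c d} h h' => r4 a.1 b.1 c.1 d.1 h h'

/-- A commutative monoid with inverses. -/
@[reducible] private def Cg_grp (M : Type) [CommMonoid M] (h : ∀ x : M, ∃ y : M, y * x = 1) :
    CommGroup M where
  inv := fun x => (h x).choose
  inv_mul_cancel := fun x => (h x).choose_spec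
  mul_comm := mul_comm

theorem pCg : S_Cg := by
  intro k t _ hB n hn
  classical
  have hDed : IsDedekindDomain (OO k t) := hB.dd
  obtain ⟨R, hR⟩ := hB.fin n hn
  have h1 : Gd n (⊤ : Ideal (OO k t)) := ⟨hB.top_ne, prI_top n⟩
  have hm : ∀ a b : Ideal (OO k t), Gd n a → Gd n b → Gd n (a * b) := by
    intro a b ha hb
    refine ⟨?_, (hB.pmul n a b).2 ⟨ha.2, hb.2⟩⟩
    intro h0
    rcases Ideal.mul_eq_bot.1 h0 with h | h
    · exact ha.1 h
    · exact hb.1 h
  let T := Cg_T n h1 hm
  let cn := Cg_con n T (fun a => hB.refl n a hn) (fun a b => hB.symm n a b hn)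
    (fun a b c => hB.trans n a b c hn) (fun a b c d => hB.mul n a b c d hn)
  have hex : ∀ x : cn.Quotient, ∃ y : cn.Quotient, y * x = 1 := by
    intro x
    induction x using Con.induction_on with
    | H a =>
      obtain ⟨a', h2, h3, h4⟩ := hB.inv n a.1 hn a.2.1 a.2.2
      have ha' : a' ∈ T := ⟨h2, h3⟩
      refine ⟨((⟨a', ha'⟩ : T) : cn.Quotient), ?_⟩
      rw [← Con.coe_mul, ← Con.coe_one, Con.eq]
      change Ray n (a' * a.1) (1 : Ideal (OO k t))
      rw [mul_comm, Ideal.one_eq_top]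
      exact h4
  let c : Ideal (OO k t) → cn.Quotient := fun a =>
    if h : Gd n a then (((⟨a, h⟩ : T) : T) : cn.Quotient) else 1
  have hc : ∀ (a : Ideal (OO k t)) (h : Gd n a), c a = ((⟨a, h⟩ : T) : cn.Quotient) := fun a h => by
    change (if h : Gd n a then (((⟨a, h⟩ : T) : T) : cn.Quotient) else 1) = _
    rw [dif_pos h]
  have hsurj : ∀ x : cn.Quotient, ∃ a : Ideal (OO k t), Gd n a ∧ c a = x := by
    intro x
    induction x using Con.induction_on with
    | H a => exact ⟨a.1, a.2, hc a.1 a.2⟩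
  have hiff : ∀ a b : Ideal (OO k t), Gd n a → Gd n b → (c a = c b ↔ Ray n a b) := by
    intro a b ha hb
    rw [hc a ha, hc b hb, Con.eq]
    exact Iff.rfl
  refine ⟨cn.Quotient, Cg_grp cn.Quotient hex, ?_, c, ?_, hiff, hsurj⟩
  · have hfin : (Set.range fun b : R => c b.1).Finite := Set.finite_range _
    refine Set.finite_univ_iff.1 (hfin.subset fun x _ => ?_)
    obtain ⟨a, ha, rfl⟩ := hsurj x
    obtain ⟨b, hb, h⟩ := hR.ex a ha.1 ha.2
    exact ⟨⟨b, hb⟩, ((hiff a b ha (hR.mem b hb)).2 h).symm⟩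
  · intro a b ha hb
    rw [hc a ha, hc b hb, hc (a * b) (hm a b ha hb)]
    rfl

end Pool.Agent.DM.PI
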