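import Pool.Agent.Lib.DM.PI.SpecD

/-!
# THEOREM DM, Part I, module FT: number fields inside the field `Wf`
-/

set_option autoImplicit false

open scoped Pointwise

noncomputable section

namespace Pool.Agent.DM.PI

open Pool.Agent.MuZ Pool.Agent.DM Pool.Agent.DN
open Pool.Agent.DS.PI (RCF)

theorem pFT (hO1 : DN.S_O1) (hO6 : DN.S_O6) (hL2 : DN.S_L2) (hB1 : DN.S_B1) (hB7 : DN.S_B7)
    (r1 : DS.S_R1) (k t : ℕ) [SqN k t] (F : IntermediateField ℚ Om)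
    (hF : FiniteDimensional ℚ F) (hFT : F ≤ Wf k t) :
    ∃ f N : ℕ, Fok f ∧ 1 ≤ N ∧ F ≤ RCF k t (f * 3 ^ N) := by
  obtain ⟨M, hM, h⟩ := DS.PI.ft hO1 hO6 hL2 hB1 hB7 r1 k t F hF hFT
  have h0 : 60 * M ≠ 0 := by omega
  obtain ⟨N, f, hf, hfN⟩ := Nat.exists_eq_pow_mul_and_not_dvd h0 3 (by decide)
  have hcop : f.Coprime 3 := ((Nat.Prime.coprime_iff_not_dvd Nat.prime_three).2 hf).symm
  have h60 : 60 ∣ 3 ^ N * f := ⟨M, hfN.symm⟩
  have h20 : 20 ∣ f := by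
    have h1 : 20 ∣ 3 ^ N * f := (show 20 ∣ 60 from ⟨3, rfl⟩).trans h60
    exact (Nat.Coprime.pow_right N (by norm_num : Nat.Coprime 20 3)).dvd_of_dvd_mul_left h1
  have hN : 1 ≤ N := by
    rcases Nat.eq_zero_or_pos N with rfl | h2
    · exfalso
      rw [pow_zero, one_mul] at h60
      exact hf ((show 3 ∣ 60 from ⟨20, rfl⟩).trans h60)
    · exact h2
  have hfpos : 0 < f := by
    rcases Nat.eq_zero_or_pos f with rfl | h2
    · exact absurd (dvd_zero 3) hf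
    · exact h2
  refine ⟨f, N, ⟨hfpos, h20, hcop⟩, hN, ?_⟩
  have e : f * 3 ^ N = 60 * M := by rw [mul_comm]; exact hfN.symm
  rw [e]
  exact h _ (by omega) (Dvd.dvd.mul_right ⟨4, rfl⟩ M) (Dvd.intro_left 60 rfl)

end Pool.Agent.DM.PI
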