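import Pool.Agent.Lib.DM.PI.SpecD

set_option autoImplicit false

/-!
# THEOREM DM, Part I: assembly of the last descent
-/

open scoped Pointwise

noncomputable section

namespace Pool.Agent.DM.PI

open Pool.Agent.MuZ Pool.Agent.DM Pool.Agent.DN
open Pool.Agent.DS.PI (RCF)

theorem pFinD : S_FinD := by
  intro hJPe hA k t _ hI hFT hMN hUp F hfd hF
  have hfact : Fact (Nat.Prime 3) := ⟨Nat.prime_three⟩
  obtain ⟨f, N, hf, hN, hle⟩ := hFT F hfd hF
  obtain ⟨h1, h2, h3, h4, h5⟩ := hMN f N hf hN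
  refine hUp F (RCF k t (f * 3 ^ N)) h1 hle ?_
  exact (hJPe hA 3 (KQ k t) (Lf k t f) (RCF k t (f * 3 ^ N)) h1 h3 h4 h2 h5).2 (hI f hf)

end Pool.Agent.DM.PI
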