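import Pool.Agent.Lib.DM.PI.SpecC

set_option autoImplicit false

/-!
# THEOREM DM, Part I: mu = 0 for K
-/

open scoped Pointwise

noncomputable section

namespace Pool.Agent.DM.PI

open Pool.Agent.MuZ Pool.Agent.DM Pool.Agent.DN

variable {k t : ℕ}

private theorem KQ0_fin : FiniteDimensional ℚ (KQ k t) := by
  have hint : IsIntegral ℚ (wO k t) :=
    (Algebra.IsAlgebraic.isAlgebraic (R := ℚ) (wO k t)).isIntegral
  exact IntermediateField.adjoin.finiteDimensional hint

private theorem KQ0_fix [Nsp k t] {g : Om} (hg : g ^ 2 = (((t : ℤ) ^ 2 - 4 * (k : ℤ) : ℤ) : Om))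
    {σ : Gal(Om/ℚ)} (hσ : σ g = g) : σ (wO k t) = wO k t := by
  have h0 := wO_sq (n := k) (t := t)
  push_cast at hg
  have h1 : (2 * wO k t - t - g) * (2 * wO k t - t + g) = 0 := by
    linear_combination 4 * h0 - hg
  have h2 : wO k t = (t + g) / 2 ∨ wO k t = (t - g) / 2 := by
    rcases mul_eq_zero.1 h1 with h | h
    · left
      linear_combination h / 2
    · right
      linear_combination h / 2
  rcases h2 with h | h
  · rw [h, map_div₀, map_add, hσ, map_natCast, map_ofNat]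
  · rw [h, map_div₀, map_sub, hσ, map_natCast, map_ofNat]

theorem pKQ0 : S_KQ0 := by
  intro hS hF k t _
  refine ⟨KQ0_fin, ?_⟩
  have hfact : Fact (Nat.Prime 3) := ⟨Nat.prime_three⟩
  refine hF 3 (by norm_num) (KQ k t) KQ0_fin ?_
  obtain ⟨m, g, hm, hg, hgal⟩ := hS ((t : ℤ) ^ 2 - 4 * (k : ℤ))
  exact ⟨m, hm, fun σ hσ => mem_GK_iff.2 (KQ0_fix hg (hgal σ hσ))⟩

end Pool.Agent.DM.PI
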