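import Pool.Agent.Lib.DM.PI.SpecC
import Pool.Agent.Lib.DI.B.A12

/-!
# THEOREM DM, part I, module LM: the fields `L_n` and `L'_n`
-/

set_option autoImplicit false

open scoped Pointwise nonZeroDivisors

noncomputable section

namespace Pool.Agent.DM.PI

open Pool.Agent.MuZ Pool.Agent.DM Pool.Agent.DN NumberField IsDedekindDomain
open Pool.Agent.DI (io ofC io_inj exists_io io_ofC ofC_io VP MP UP TP ex)
open Pool.Agent.DT (kap cbr)
open Pool.Agent.DI.PI (Reps HypI Meas tr)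

private theorem LM_rel (F : IntermediateField ℚ Om) (hF : FiniteDimensional ℚ F)
    (W : Subgroup Gal(Om/ℚ)) : F.fixingSubgroup.relIndex W ≠ 0 := by
  have h1 : IsOpen (F.fixingSubgroup : Set Gal(Om/ℚ)) := IntermediateField.fixingSubgroup_isOpen F
  have h2 : Finite (Gal(Om/ℚ) ⧸ F.fixingSubgroup) := Subgroup.quotient_finite_of_isOpen _ h1
  have h3 : F.fixingSubgroup.FiniteIndex := Subgroup.finiteIndex_of_finite_quotient
  have h4 : (F.fixingSubgroup.subgroupOf W).FiniteIndex := inferInstance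
  exact h4.index_ne_zero

private theorem LM_pow {k t : ℕ} [Nsp k t] (hB : Bas k t) {n : ℕ} {a b : Ideal (OO k t)} (hn : Md n)
    (h : Ray n a b) (i : ℕ) : Ray n (a ^ i) (b ^ i) := by
  induction i with
  | zero =>
    rw [pow_zero, pow_zero]
    exact hB.refl _ _ hn
  | succ i ih =>
    rw [pow_succ, pow_succ]
    exact hB.mul _ _ _ _ _ hn ih h

private theorem LM_pri {k t : ℕ} [Nsp k t] (hB : Bas k t) {n : ℕ} {a : Ideal (OO k t)}
    (h : PrI a n) (i : ℕ) : PrI (a ^ i) n := by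
  induction i with
  | zero =>
    rw [pow_zero, Ideal.one_eq_top]
    exact prI_top n
  | succ i ih =>
    rw [pow_succ]
    exact (hB.pmul _ _ _).2 ⟨ih, h⟩

private theorem LM_H3 {k t : ℕ} [Nsp k t] (hB : Bas k t) {f : ℕ} (hf : Fok f)
    {a : Ideal (OO k t)} (h : HP f a) : H3 f a := by
  have := hB.dd
  have hn : Md (3 * f) := md3 hf
  obtain ⟨v, hv0, ⟨hv1, j, hj⟩, hv2⟩ := h
  refine ⟨j, ?_⟩
  have h1 := LM_pow hB hn hv2 (3 ^ j)
  have h2 : sp v ^ 3 ^ j = sp (v ^ 3 ^ j) := Ideal.span_singleton_pow v _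
  have h3 : sp (1 : OO k t) = ⊤ := Ideal.span_singleton_one
  refine hB.trans _ _ _ _ hn h1 ⟨1, v ^ 3 ^ j, one_ne_zero, pow_ne_zero _ hv0, ?_, ?_, ?_, ?_⟩
  · exact cop_one _
  · exact (hB.prsp hn.pos _).1 (by rw [← h2]; exact LM_pri hB ((hB.prsp hn.pos v).2 hv1) _)
  · rw [dvd_sub_comm]
    exact hj
  · rw [h3, Ideal.top_mul, Ideal.mul_top, h2]

theorem pLM : S_LM := by
  intro hCg hAr3 hNiL hPs hGalI hGM k t _ hB f hf
  have hf0 : 0 < f := hf.pos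
  obtain ⟨-, -, hN, -, a5⟩ := (hAr3 hCg k t hB).1 f hf
  obtain ⟨-, g2, -, -, g5, -, -, g8⟩ := hGM k t f hf
  have hn : ∀ N : ℕ, Md (f * 3 ^ (N + 1)) := fun N => mdN hf (by omega)
  have h3f : Md (3 * f) := md3 hf
  have hNL : ∀ n : ℕ, NiceI (f * 3 ^ (n + 1)) (H3N (n := k) (t := t) f (n + 1)) := by
    intro n
    rw [a5 (n + 1) (by omega)]
    exact hNiL k t hB f (H3 f) hf hN n
  have hNM : ∀ n : ℕ, NiceI (f * 3 ^ (n + 1)) (HPN (n := k) (t := t) f (n + 1)) :=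
    fun n => ⟨(g2 (n + 1) (by omega)).1, (g2 (n + 1) (by omega)).2.1,
      (g2 (n + 1) (by omega)).2.2.1, (g2 (n + 1) (by omega)).2.2.2.1⟩
  have hG := hGalI hPs k t hB
  have hLL : ∀ n : ℕ, Lf k t f ≤ Ln k t f (n + 1) := by
    intro n x hx τ hτ a h1 h2
    exact hx τ hτ a (hB.down _ _ (hn _) h3f (le3 (by omega)) τ a h1) h2.1
  have hLn : ∀ n : ℕ, Ln k t f (n + 1) ≤ Ln k t f (n + 1 + 1) := by
    intro n x hx τ hτ a h1 h2
    exact hx τ hτ a (hB.down _ _ (hn _) (hn _) (le3' (by omega)) τ a h1)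
      ⟨h2.1, (pow_dvd_pow 3 (Nat.le_succ _)).trans h2.2⟩
  have hLM : ∀ n : ℕ, Ln k t f (n + 1) ≤ Mn k t f (n + 1) := by
    intro n x hx τ hτ a h1 h2
    obtain ⟨h4, h5⟩ := ((g2 (n + 1) (by omega)).2.2.2.2 a h1.ne (psi_pr hB h1 (hn n).pos)).1 h2
    exact hx τ hτ a h1 ⟨LM_H3 hB hf h4, h5⟩
  have hM1 : ∀ n : ℕ, Mn k t f 1 ≤ Mn k t f (n + 1) := by
    intro n
    induction n with
    | zero => exact le_rfl
    | succ n ih => exact ih.trans (g5 (n + 1) (by omega)).2.2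
  refine ⟨(hG _ (H3 f) h3f hN).2.2.1, fun n => ?_, fun n => ?_⟩
  · unfold Ln LyI
    rw [a5 (n + 1) (by omega)]
  obtain ⟨-, -, -, -, -, -, -, l8⟩ := hG _ _ (hn n) (hNL n)
  obtain ⟨-, -, -, m4, -, -, m7, m8⟩ := hG _ _ (hn n) (hNM n)
  refine ⟨IntermediateField.fixingSubgroup_le (hLL n),
    IntermediateField.fixingSubgroup_le (hLM n), LM_rel _ (g5 (n + 1) (by omega)).1 _,
    IntermediateField.fixingSubgroup_le (hLn n),
    IntermediateField.fixingSubgroup_le (g5 (n + 1) (by omega)).2.2,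
    LM_rel _ (g5 (n + 1 + 1) (by omega)).1 _, l8, m8, m7, m4, ?_⟩
  intro τ hτ
  have h1 : IsPrimitiveRoot (DT.zet 3) (3 ^ 1) := by
    rw [pow_one]
    exact (Pool.Agent.DI.tA2 3 (by norm_num)).2
  refine ((g8 1 le_rfl (DT.zet 3) h1 τ).1 ?_).2
  intro x hx
  exact (IntermediateField.mem_fixingSubgroup_iff _ _).1 hτ x (hM1 n hx)

end Pool.Agent.DM.PI
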