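import Pool.Agent.Lib.DM.PI.SpecD

/-!
# THEOREM DM, Part I, module MN1: the ray class field
-/

set_option autoImplicit false

open scoped Pointwise

namespace Pool.Agent.DM.PI

open Pool.Agent.MuZ Pool.Agent.DM Pool.Agent.DN
open Pool.Agent.DS.PI (RCF)

private theorem MN1_nice {k t : ℕ} [Nsp k t] (hB : Bas k t) (n : ℕ) (hn : Md n) :
    NiceI n (fun a : Ideal (OO k t) => Ray n a ⊤) := by
  refine ⟨hB.refl n ⊤ hn, fun a ha => ⟨(hB.bot n a ⊤ hn ha).2 hB.top_ne,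
    (hB.pri n a ⊤ hn ha).2 (prI_top n)⟩,
    fun a a' ha haa' => hB.trans n _ _ _ hn (hB.symm n _ _ hn haa') ha, fun a a' ha ha' => ?_⟩
  have h := hB.mul n _ _ _ _ hn ha ha'
  rwa [Ideal.mul_top] at h

theorem pMN1 : S_MN1 := by
  intro hCg hAr3 hPs hGalI k t _ hB f N hf hN
  have hf0 : 0 < f := hf.pos
  have hn : Md (f * 3 ^ N) := mdN hf hN
  have hn3 : Md (3 * f) := md3 hf
  have hle : 3 * f ∣ f * 3 ^ N := le3 hN
  have hH := MN1_nice hB _ hn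
  obtain ⟨hA1, -⟩ := hAr3 hCg k t hB
  obtain ⟨-, hA2, hL, -, -⟩ := hA1 f hf
  obtain ⟨g1, -, -, g4, -, g6, -⟩ := hGalI hPs k t hB (f * 3 ^ N) _ hn hH
  obtain ⟨-, l2, l3, l4, -⟩ := hGalI hPs k t hB (3 * f) _ hn3 hL
  obtain ⟨-, -, p3, -⟩ := hPs k t hB (f * 3 ^ N) hn
  refine ⟨g1, g6, l2, ?_, ?_⟩
  · intro x hx τ hτ a ha hr
    exact hx τ hτ a (hB.down _ _ hn hn3 hle τ a ha) ⟨0, by
      rw [pow_zero, pow_one]
      exact hB.mono _ _ a ⊤ hn hle hr⟩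
  · obtain ⟨e, he⟩ := hA2 N hN
    refine ⟨e, fun σ hσ => ?_⟩
    have hσK : σ ∈ GK k t := l3 hσ
    obtain ⟨b, hb⟩ := hB.psi _ hn σ hσK
    have hH3 : H3 f b := (l4 σ hσK b (hB.down _ _ hn hn3 hle σ b hb)).1 hσ
    exact (g4 (σ ^ 3 ^ e) (pow_mem hσK _) _ (p3 σ b (3 ^ e) hb)).2 (he b ⟨hb.ne, psi_pr hB hb hn.pos⟩ hH3)

end Pool.Agent.DM.PI
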