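import Pool.Agent.Lib.DM.PI.SpecC
import Pool.Agent.Lib.DI.B.A12

/-!
# Theorem DM, Part I: the norm of `a` and `Qcyc 3`
-/

set_option autoImplicit false

open scoped Pointwise

noncomputable section

namespace Pool.Agent.DM.PI

open Pool.Agent.MuZ Pool.Agent.DM Pool.Agent.DN

private theorem NoC_four (N : ℕ) (c : ℤ) (h : (3 : ℤ) ^ N ∣ c ^ 4 - 1) :
    (3 : ℤ) ^ N ∣ c - 1 ∨ (3 : ℤ) ^ N ∣ c + 1 := by
  rcases Nat.eq_zero_or_pos N with rfl | hN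
  · left
    rw [pow_zero]
    exact one_dvd _
  · have h3 : (3 : ℤ) ∣ c ^ 4 - 1 := (dvd_pow_self 3 (by omega)).trans h
    have hp : Prime (3 : ℤ) := Int.prime_three
    have hmod : c % 3 = 0 ∨ c % 3 = 1 ∨ c % 3 = 2 := by omega
    have hc : ∃ s, c = 3 * s + c % 3 := ⟨c / 3, by omega⟩
    obtain ⟨s, hs⟩ := hc
    rcases hmod with h0 | h0 | h0
    · exfalso
      rw [h0, add_zero] at hs
      rw [hs] at h3
      have h4 : (3 : ℤ) ∣ (3 * s) ^ 4 := (Dvd.intro _ rfl).trans (dvd_pow_self (3 * s) (by norm_num))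
      have h5 := dvd_sub h4 h3
      have h6 : (3 * s) ^ 4 - ((3 * s) ^ 4 - 1) = (1 : ℤ) := by ring
      rw [h6] at h5
      omega
    · left
      rw [h0] at hs
      have h1 : IsCoprime ((3 : ℤ) ^ N) ((c + 1) * (c ^ 2 + 1)) := by
        apply IsCoprime.pow_left
        rw [hs]
        exact ⟨-(9 * s ^ 3 + 12 * s ^ 2 + 6 * s + 1), 1, by ring⟩
      have h2 : c ^ 4 - 1 = (c - 1) * ((c + 1) * (c ^ 2 + 1)) := by ring
      rw [h2] at h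
      exact h1.dvd_of_dvd_mul_right h
    · right
      rw [h0] at hs
      have h1 : IsCoprime ((3 : ℤ) ^ N) ((c - 1) * (c ^ 2 + 1)) := by
        apply IsCoprime.pow_left
        rw [hs]
        exact ⟨9 * s ^ 3 + 15 * s ^ 2 + 9 * s + 2, -1, by ring⟩
      have h2 : c ^ 4 - 1 = (c + 1) * ((c - 1) * (c ^ 2 + 1)) := by ring
      rw [h2] at h
      exact h1.dvd_of_dvd_mul_right h

private theorem NoC_pow {τ : Gal(Om/ℚ)} {ζ : Om} {c : ℕ} (h : τ ζ = ζ ^ c) (i : ℕ) :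
    (τ ^ i) ζ = ζ ^ (c ^ i) := by
  induction i with
  | zero => simp only [pow_zero, pow_one, AlgEquiv.one_apply]
  | succ i ih =>
    rw [pow_succ, AlgEquiv.mul_apply, h, map_pow, ih, ← pow_mul, pow_succ]

theorem pNoC : S_NoC := by
  intro hT k t _ hB τ hτ hτc M N a hM hPsi
  have hMN : Md (M * 3 ^ N) := hM
  have hζ := (DI.tA2 (3 ^ N) (by positivity)).2
  obtain ⟨ζ, hζe⟩ : ∃ ζ, ζ = DI.zet (3 ^ N) := ⟨_, rfl⟩
  rw [← hζe] at hζ
  have h5 : τ ζ = ζ ^ (NI a) := by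
    refine hB.cyc (M * 3 ^ N) τ a hτ hMN hPsi ζ ?_
    rw [mul_comm, pow_mul, hζ.pow_eq_one, one_pow]
  have hT2 := hT 3 Nat.prime_three τ hτc ζ ⟨N, hζ.pow_eq_one⟩
  have h6 : (τ ^ (2 * (3 - 1))) ζ = ζ ^ (NI a ^ 4) := NoC_pow h5 4
  rw [h6] at hT2
  have hζ0 : ζ ≠ 0 := hζ.ne_zero (by positivity)
  have h7 : ζ ^ ((NI a : ℤ) ^ 4 - 1) = 1 := by
    have h8 : ((NI a ^ 4 : ℕ) : ℤ) = (NI a : ℤ) ^ 4 := by push_cast; rfl
    rw [← h8, zpow_sub₀ hζ0, zpow_natCast, hT2, zpow_one, div_self hζ0]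
  have h9 := (hζ.zpow_eq_one_iff_dvd _).1 h7
  rw [Nat.cast_pow] at h9
  exact NoC_four N _ h9

end Pool.Agent.DM.PI
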