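import Pool.Agent.Lib.DM.PI.SpecC

/-!
# THEOREM DM, Part I, module Ps: elementary facts about `Psi`
-/

set_option autoImplicit false

open scoped Pointwise

namespace Pool.Agent.DM.PI

open Pool.Agent.MuZ Pool.Agent.DM Pool.Agent.DN

private theorem Ps_one {k t : ℕ} [Nsp k t] (hB : Bas k t) (n : ℕ) :
    Psi 1 n (⊤ : Ideal (OO k t)) := by
  refine ⟨hB.top_ne, prI_top _, fun b _ _ => ?_, fun b _ _ => ?_, fun b _ _ z _ => ?_⟩
  · rw [Ideal.top_mul, AlgEquiv.one_apply]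
  · rw [Ideal.top_mul, AlgEquiv.one_apply]
  · rw [Ideal.top_mul, AlgEquiv.one_apply]

theorem pPs : S_Ps := by
  intro k t _ hB n hn
  have h1 : Psi 1 n (⊤ : Ideal (OO k t)) := Ps_one hB n
  have h5 : ∀ τ ∈ GK k t, ∀ a : Ideal (OO k t), Psi τ n a →
      ∃ a', Psi τ⁻¹ n a' ∧ Ray n (a * a') ⊤ := by
    intro τ hτ a h
    obtain ⟨a', ha'⟩ := hB.psi n hn τ⁻¹ (inv_mem hτ)
    refine ⟨a', ha', ?_⟩
    have h6 := hB.pmu n hn τ τ⁻¹ a a' h ha'
    rw [mul_inv_cancel] at h6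
    exact hB.uni n hn 1 _ _ h6 h1
  refine ⟨h1, h5, ?_, ?_, ?_⟩
  · intro τ a i h
    induction i with
    | zero =>
      rw [pow_zero, pow_zero, Ideal.one_eq_top]
      exact h1
    | succ i ih =>
      rw [pow_succ, pow_succ]
      exact hB.pmu n hn _ _ _ _ ih h
  · intro σ hσ τ hτ
    obtain ⟨a, ha⟩ := hB.psi n hn σ hσ
    obtain ⟨b, hb⟩ := hB.psi n hn τ hτ
    obtain ⟨a', ha', hra⟩ := h5 σ hσ a ha
    obtain ⟨b', hb', hrb⟩ := h5 τ hτ b hb
    have h6 : Psi (σ * τ * σ⁻¹ * τ⁻¹) n (a * b * a' * b') :=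
      hB.pmu n hn _ _ _ _ (hB.pmu n hn _ _ _ _ (hB.pmu n hn _ _ _ _ ha hb) ha') hb'
    have h7 : Ray n (a * b * a' * b') (⊤ : Ideal (OO k t)) := by
      have h8 := hB.mul n _ _ _ _ hn hra hrb
      rw [Ideal.top_mul] at h8
      have h9 : a * b * a' * b' = a * a' * (b * b') := by
        rw [mul_assoc a b a', mul_comm b a', ← mul_assoc a a' b, mul_assoc (a * a') b b']
      rw [h9]
      exact h8
    exact hB.ray n hn _ _ _ h6 h7
  · intro τ hτ τ' hτ' a a' h h' hr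
    obtain ⟨b, hb, hrb⟩ := h5 τ hτ a h
    have h6 : Psi (τ⁻¹ * τ') n (b * a') := hB.pmu n hn _ _ _ _ hb h'
    have h7 : Ray n (b * a') (⊤ : Ideal (OO k t)) := by
      have h8 := hB.mul n _ _ _ _ hn (hB.refl n b hn) (hB.symm n _ _ hn hr)
      rw [mul_comm b a] at h8
      exact hB.trans n _ _ _ hn h8 hrb
    exact hB.ray n hn _ _ _ h6 h7

end Pool.Agent.DM.PI
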