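import Pool.Agent.Lib.DM.PI.BasOf
import Pool.Agent.Lib.DM.PI.Cg
import Pool.Agent.Lib.DM.PI.Ar2
import Pool.Agent.Lib.DM.PI.Ar3
import Pool.Agent.Lib.DM.PI.NiL
import Pool.Agent.Lib.DM.PI.Ps
import Pool.Agent.Lib.DM.PI.GalI
import Pool.Agent.Lib.DM.PI.NoC
import Pool.Agent.Lib.DM.PI.LyI
import Pool.Agent.Lib.DM.PI.KF1
import Pool.Agent.Lib.DM.PI.ExP
import Pool.Agent.Lib.DM.PI.Chi
import Pool.Agent.Lib.DM.PI.LM
import Pool.Agent.Lib.DM.PI.BInv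
import Pool.Agent.Lib.DM.PI.BNrm
import Pool.Agent.Lib.DM.PI.AP
import Pool.Agent.Lib.DM.PI.aP
import Pool.Agent.Lib.DM.PI.AThm
import Pool.Agent.Lib.DM.PI.DS
import Pool.Agent.Lib.DM.PI.ANv
import Pool.Agent.Lib.DM.PI.gEx
import Pool.Agent.Lib.DM.PI.HypC
import Pool.Agent.Lib.DM.PI.LK0
import Pool.Agent.Lib.DM.PI.KQ0
import Pool.Agent.Lib.DM.PI.FT
import Pool.Agent.Lib.DM.PI.MN1
import Pool.Agent.Lib.DM.PI.FinD
import Pool.Agent.Lib.DS.PI.JMain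
import Pool.Agent.Lib.DT.PI.Kap
import Pool.Agent.Lib.DT.PI.Tei
import Pool.Agent.Lib.DT.PI.Sqr
import Pool.Agent.Lib.DK.PI.RpT
import Pool.Agent.Lib.FW.AsmFW2
import Pool.Agent.Lib.DN.B.All
import Pool.Agent.Lib.DN.O.All

/-!
# THEOREM DM, Part I (helper55): assembly, for all fields in which `3` does not split

`InG`: the statements of the other parts which are used for all fields. `meas_of`: `Meas` for the characters for which the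
output `GO` of Part G holds. `thm_of`: if `XFinGen 3 (cyc 3 (Lf k t f))` for all `f` then `XFinGen 3 (cyc 3 F)` for all number
fields `F ≤ Wf k t`.
-/

set_option autoImplicit false

open scoped Pointwise

noncomputable section

namespace Pool.Agent.DM.PI

open Pool.Agent.MuZ Pool.Agent.DM Pool.Agent.DN
open Pool.Agent.DI.PI (Reps HypI Meas tr)
open Pool.Agent.DS.PI (RCF HypJ)

/-- The statements of the other parts. -/
structure InG : Prop where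
  R1 : DS.S_R1
  E1 : DS.S_E1
  E6 : DS.S_E6
  E7 : DS.S_E7
  E8 : DS.S_E8
  GR : S_GR
  GM : S_GM
  G3 : S_G3
  H : S_H

/-- The basic facts. -/
theorem InG.bas (i : InG) (k t : ℕ) [SqN k t] : Bas k t :=
  bas_of aO1 aO2 aO6 aO7 aO9 i.E1 i.E6 i.E7 i.E8 k t

/-- The layers. -/
theorem InG.ly (i : InG) (k t : ℕ) [Nsp k t] : ∀ (f : ℕ) (H : Ideal (OO k t) → Prop), Fok f →
    NiceI (3 * f) H → ∀ n : ℕ, Layer 3 (FixI (3 * f) H) n (LyI f n H) :=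
  pLyI pNoC c_TFix pGalI pNiL pPs pAr2 c_Lay k t (i.bas k t)

/-- `Meas` for one character. -/
theorem meas_of (i : InG) (k t : ℕ) [Nsp k t] (f : ℕ) (hf : Fok f) (P : Ideal ZZ)
    (hP : P.IsPrime) (h3 : (3 : ZZ) ∈ P) (χb : Gal(Om/ℚ) → ZZ ⧸ P)
    (hmul : ∀ σ ∈ GK k t, ∀ τ ∈ GK k t, χb (σ * τ) = χb σ * χb τ)
    (hL : ∀ σ ∈ (Lf k t f).fixingSubgroup, χb σ = 1) (hnt : ∃ σ ∈ GK k t, χb σ ≠ 1)
    (hG : ∀ χ : Ideal (OO k t) → ZZ, IsChi (3 * f) (fun a => (χ a : Om)) →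
      (∀ σ ∈ GK k t, ∀ a : Ideal (OO k t), Psi σ⁻¹ (3 * f) a →
        Ideal.Quotient.mk P (χ a) = χb σ) → GO f P (fun a => (χ a : Om))) :
    ∃ (n0 : ℕ) (a : ℕ → Gal(Om/ℚ) → ZMod 3), Meas 3 (KQ k t) (Lf k t f) P χb n0 a :=
  pHypC pChi pLM pBInv pBNrm DK.PI.pRpT pAP paP pAThm pDS pANv pgEx DI.PI.pRpS DT.PI.pKap
    DT.PI.pTei pCg pAr2 pAr3 pNiL pPs pGalI pKF1 c_Lay i.GR i.GM i.G3 i.H k t (i.bas k t)
    (i.ly k t)
    (DI.PI.pLyU DI.PI.pUnq c_QZ c_Sub c_PL c_Pc c_TFix c_NF c_Lay 3) f hf P hP h3 χb hmul hL hnt hG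

/-- **The descent for `Lf k t f`** from an intermediate field `E`. -/
theorem lf_of (i : InG) (k t : ℕ) [Nsp k t] (f : ℕ) (hf : Fok f) (E : IntermediateField ℚ Om)
    (hKE : KQ k t ≤ E) (hEL : E ≤ Lf k t f) (hE : ∀ σ ∈ GK k t, ∀ x ∈ E, σ x ∈ E)
    (hX : XFinGen 3 (cyc 3 E)) (hJ : HypJ 3 (KQ k t) E (Lf k t f)) :
    XFinGen 3 (cyc 3 (Lf k t f)) := by
  obtain ⟨h1, h2, h3', h4, h5⟩ := pLK0 pCg pAr3 pPs pGalI k t (i.bas k t) f hf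
  have : Fact (Nat.Prime 3) := ⟨Nat.prime_three⟩
  exact DS.PI.pJM 3 (KQ k t) E (Lf k t f) h1 h2 hKE hEL h3' hE h4 h5 hJ hX

/-- **From the fields `Lf k t f` to all number fields inside `Wf k t`.** -/
theorem wf_of (i : InG) (k t : ℕ) [Nsp k t] (hI : ∀ f : ℕ, Fok f → XFinGen 3 (cyc 3 (Lf k t f)))
    (F : IntermediateField ℚ Om) (hF : FiniteDimensional ℚ F) (hW : F ≤ Wf k t) :
    XFinGen 3 (cyc 3 F) := by
  have : Fact (Nat.Prime 3) := ⟨Nat.prime_three⟩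
  exact pFinD DI.PI.pJPe DI.PI.Top_A k t hI
    (fun F hF hW => pFT aO1 aO6 aL2 aB1 aB7 i.R1 k t F hF hW)
    (fun f N hf hN => pMN1 pCg pAr3 pPs pGalI k t (i.bas k t) f N hf hN)
    (DI.PI.pUp res sup fld fwd bwd 3) F hF hW

end Pool.Agent.DM.PI
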