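import Pool.Agent.Lib.DM.IfaceG

/-!
# THEOREM DM, Part I (helper55): the basic facts on ideals, ray classes and the Galois action

`Bas k t` lists the facts of the other parts (O of DN, E of DS) which are used in Part I. It is proved at the end
(`DM/PI/BasOf.lean`) from the statements of these parts. The ring parameters are called `k t` (`k` is the `n` of
`DN/Defs.lean`). The moduli are the natural numbers `n` with `Md n`.
-/

set_option autoImplicit false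

open scoped Pointwise nonZeroDivisors

noncomputable section

namespace Pool.Agent.DM.PI

open Pool.Agent.MuZ Pool.Agent.DM Pool.Agent.DN NumberField IsDedekindDomain
open Pool.Agent.DI (io ofC io_inj exists_io io_ofC ofC_io VP MP UP TP ex)

/-- The moduli. -/
structure Md (n : ℕ) : Prop where
  pos : 0 < n
  dvd : 15 ∣ n

/-- The ideals prime to `n`. -/
abbrev Gd {k t : ℕ} (n : ℕ) (a : Ideal (OO k t)) : Prop := a ≠ ⊥ ∧ PrI a n

/-- The norm of `a` is `±1` modulo `3 ^ N`. -/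
abbrev Nm1 {k t : ℕ} (N : ℕ) (a : Ideal (OO k t)) : Prop :=
  (3 : ℤ) ^ N ∣ (NI a : ℤ) - 1 ∨ (3 : ℤ) ^ N ∣ (NI a : ℤ) + 1

/-- The basic facts. -/
structure Bas (k t : ℕ) [SqN k t] : Prop where
  /-- `O` is a Dedekind domain. -/
  dd : IsDedekindDomain (OO k t)
  nmul : ∀ v u : OO k t, Nm (v * u) = Nm v * Nm u
  nzero : ∀ v : OO k t, Nm v = 0 ↔ v = 0
  nsp : ∀ v : OO k t, (NI (sp v) : ℤ) = Nm v
  imul : ∀ a b : Ideal (OO k t), NI (a * b) = NI a * NI b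
  izero : ∀ a : Ideal (OO k t), NI a = 0 ↔ a = ⊥
  cj : ∀ v : OO k t, v * cjO v = ((Nm v : ℤ) : OO k t)
  pmul : ∀ (n : ℕ) (a b : Ideal (OO k t)), PrI (a * b) n ↔ PrI a n ∧ PrI b n
  pni : ∀ (N : ℕ) (a : Ideal (OO k t)), 0 < N → (PrI a N ↔ (NI a).Coprime N)
  /-- `Ray n` is an equivalence relation, compatible with products. -/
  refl : ∀ (n : ℕ) (a : Ideal (OO k t)), Md n → Ray n a a
  symm : ∀ (n : ℕ) (a b : Ideal (OO k t)), Md n → Ray n a b → Ray n b a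
  trans : ∀ (n : ℕ) (a b c : Ideal (OO k t)), Md n → Ray n a b → Ray n b c → Ray n a c
  mul : ∀ (n : ℕ) (a b c d : Ideal (OO k t)), Md n → Ray n a b → Ray n c d →
    Ray n (a * c) (b * d)
  bot : ∀ (n : ℕ) (a b : Ideal (OO k t)), Md n → Ray n a b → (a ≠ ⊥ ↔ b ≠ ⊥)
  pri : ∀ (n : ℕ) (a b : Ideal (OO k t)), Md n → Ray n a b → (PrI a n ↔ PrI b n)
  mono : ∀ (n m : ℕ) (a b : Ideal (OO k t)), Md n → m ∣ n → Ray n a b → Ray m a b
  inv : ∀ (n : ℕ) (a : Ideal (OO k t)), Md n → a ≠ ⊥ → PrI a n →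
    ∃ a' : Ideal (OO k t), a' ≠ ⊥ ∧ PrI a' n ∧ Ray n (a * a') ⊤
  fin : ∀ n : ℕ, Md n → ∃ R : Finset (Ideal (OO k t)), IsRC n R
  /-- Norms of ideals in the same class. -/
  rnm : ∀ (N : ℕ) (a a' : Ideal (OO k t)), 0 < N → PrI a N → PrI a' N →
    Ray N a a' → (N : ℤ) ∣ (NI a : ℤ) - NI a'
  /-- The Galois action: existence, uniqueness, invariance, products, smaller modulus. -/
  psi : ∀ n : ℕ, Md n → ∀ τ ∈ GK k t, ∃ a : Ideal (OO k t), Psi τ n a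
  uni : ∀ n : ℕ, Md n → ∀ (τ : Gal(Om/ℚ)) (a a' : Ideal (OO k t)), Psi τ n a →
    Psi τ n a' → Ray n a a'
  ray : ∀ n : ℕ, Md n → ∀ (τ : Gal(Om/ℚ)) (a a' : Ideal (OO k t)), Psi τ n a →
    Ray n a a' → Psi τ n a'
  pmu : ∀ n : ℕ, Md n → ∀ (τ τ' : Gal(Om/ℚ)) (a a' : Ideal (OO k t)), Psi τ n a →
    Psi τ' n a' → Psi (τ * τ') n (a * a')
  down : ∀ n m : ℕ, Md n → Md m → m ∣ n → ∀ (τ : Gal(Om/ℚ)) (a : Ideal (OO k t)),
    Psi τ n a → Psi τ m a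
  cyc : ∀ (N : ℕ) (τ : Gal(Om/ℚ)) (a : Ideal (OO k t)), τ ∈ GK k t → Md N →
    Psi τ N a → ∀ ζ : Om, ζ ^ N = 1 → τ ζ = ζ ^ NI a
  sur : ∀ (n : ℕ) (a : Ideal (OO k t)), Md n → a ≠ ⊥ → PrI a n → ∃ τ ∈ GK k t, Psi τ n a
  /-- Galois theory for `FixI`. -/
  gal : ∀ (n : ℕ) (H : Ideal (OO k t) → Prop), Md n → H ⊤ →
    (∀ a, H a → a ≠ ⊥ ∧ PrI a n) → (∀ a a', H a → Ray n a a' → H a') →
    (∀ a a', H a → H a' → H (a * a')) →
    FiniteDimensional ℚ (FixI n H) ∧ KQ k t ≤ FixI n H ∧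
    ∀ τ ∈ GK k t, ∀ a : Ideal (OO k t), Psi τ n a → ((∀ x ∈ FixI n H, τ x = x) ↔ H a)

variable {k t : ℕ}

theorem natCast_OO_ne {N : ℕ} (h : 0 < N) : (N : OO k t) ≠ 0 := by
  intro h1
  have h2 : ((N : OO k t)).re = 0 := by rw [h1]; rfl
  have h3 : (N : ℤ) = 0 := by simpa using h2
  omega

/-- The class of `τ` is prime to the modulus. -/
theorem psi_pr [SqN k t] (hB : Bas k t) {n : ℕ} {τ : Gal(Om/ℚ)} {a : Ideal (OO k t)}
    (h : Psi τ n a) (hn : 0 < n) : PrI a n := by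
  have h1 := (hB.pni (15 * n) a (by omega)).1 h.cop
  exact (hB.pni n a hn).2 (Nat.Coprime.coprime_dvd_right (Dvd.intro_left _ rfl) h1)

theorem d15 {f : ℕ} (hf : Fok f) : 15 ∣ 3 * f := by
  obtain ⟨j, hj⟩ := hf.dvd
  exact ⟨4 * j, by rw [hj]; ring⟩

theorem md3 {f : ℕ} (hf : Fok f) : Md (3 * f) := ⟨by have := hf.pos; omega, d15 hf⟩

theorem mdN {f N : ℕ} (hf : Fok f) (hN : 1 ≤ N) : Md (f * 3 ^ N) := by
  refine ⟨Nat.mul_pos hf.pos (by positivity), (d15 hf).trans ?_⟩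
  rw [mul_comm 3 f]
  exact Nat.mul_dvd_mul_left f (dvd_pow_self 3 (by omega))

theorem fok20 : Fok 20 := ⟨by norm_num, dvd_rfl, by norm_num⟩

theorem Bas.top [SqN k t] (hB : Bas k t) : NI (⊤ : Ideal (OO k t)) = 1 := by
  have h := hB.nsp 1
  have h1 : Nm (1 : OO k t) = 1 := by
    have h2 : (1 : OO k t).re = 1 := rfl
    have h3 : (1 : OO k t).im = 0 := rfl
    rw [Nm, h2, h3]
    ring
  rw [h1] at h
  have h2 : sp (1 : OO k t) = ⊤ := Ideal.span_singleton_one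
  rw [h2] at h
  exact_mod_cast h

theorem Bas.top_ne [SqN k t] (hB : Bas k t) : (⊤ : Ideal (OO k t)) ≠ ⊥ := by
  intro h
  have h1 := (hB.izero ⊤).2 h
  rw [hB.top] at h1
  exact one_ne_zero h1

theorem prI_top (n : ℕ) : PrI (⊤ : Ideal (OO k t)) n := by simp [PrI]

theorem Bas.prsp [SqN k t] (hB : Bas k t) {N : ℕ} (hN : 0 < N) (v : OO k t) :
    PrI (sp v) N ↔ IsCoprime (Nm v) (N : ℤ) := by
  rw [hB.pni N _ hN, ← hB.nsp v, Int.isCoprime_iff_gcd_eq_one, Int.gcd_natCast_natCast]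

/-- Prime to `f 3 ^ N` is the same as prime to `3 f`, for `N ≥ 1`. -/
theorem Bas.pr3 [SqN k t] (hB : Bas k t) {f N : ℕ} (hf : 0 < f) (hN : 1 ≤ N)
    (a : Ideal (OO k t)) : PrI a (f * 3 ^ N) ↔ PrI a (3 * f) := by
  rw [hB.pni _ _ (by positivity), hB.pni _ _ (by positivity), Nat.coprime_mul_iff_right,
    Nat.coprime_mul_iff_right]
  constructor
  · rintro ⟨h1, h2⟩
    exact ⟨Nat.Coprime.coprime_dvd_right (dvd_pow_self 3 (by omega)) h2, h1⟩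
  · rintro ⟨h1, h2⟩
    exact ⟨h2, h1.pow_right N⟩

/-- The modulus `f 3 ^ N` is divisible by `3 f`. -/
theorem le3 {f N : ℕ} (hN : 1 ≤ N) : 3 * f ∣ f * 3 ^ N := by
  rw [mul_comm 3 f]
  exact Nat.mul_dvd_mul_left f (dvd_pow_self 3 (by omega))

theorem le3' {f N M : ℕ} (h : N ≤ M) : f * 3 ^ N ∣ f * 3 ^ M :=
  Nat.mul_dvd_mul_left f (pow_dvd_pow 3 h)

end Pool.Agent.DM.PI
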