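import Pool.Agent.Lib.DM.PI.Bas
import Pool.Agent.Lib.DS.Iface

/-!
# THEOREM DM, Part I: the basic facts from the statements of the parts O and E
-/

set_option autoImplicit false

open scoped Pointwise

noncomputable section

namespace Pool.Agent.DM.PI

open Pool.Agent.MuZ Pool.Agent.DM Pool.Agent.DN
open Pool.Agent.DI (io ofC io_inj exists_io io_ofC ofC_io VP MP UP TP ex)

theorem bas_of (O1 : DN.S_O1) (O2 : DN.S_O2) (O6 : DN.S_O6) (O7 : DN.S_O7) (O9 : DN.S_O9)
    (E1 : DS.S_E1) (E6 : DS.S_E6) (E7 : DS.S_E7) (E8 : DS.S_E8) (k t : ℕ) [SqN k t] : Bas k t := by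
  obtain ⟨o21, o22, o23, o24, o25, o26, o27, o28⟩ := O2 k t
  obtain ⟨o61, o62, o63, o64, o65⟩ := O6 k t
  exact
    { dd := O1 k t
      nmul := o21
      nzero := o23
      nsp := o24
      imul := o25
      izero := o26
      cj := o27
      pmul := fun n a b => o61 n a b
      pni := fun N a hN => o63 N a hN
      refl := fun n a hn => (O7 k t n hn.pos).1 a
      symm := fun n a b hn => (O7 k t n hn.pos).2.1 a b
      trans := fun n a b c hn => (O7 k t n hn.pos).2.2.1 a b c
      mul := fun n a b c d hn => (O7 k t n hn.pos).2.2.2.1 a b c d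
      bot := fun n a b hn h => ((O7 k t n hn.pos).2.2.2.2.2.1 a b h).1
      pri := fun n a b hn h => ((O7 k t n hn.pos).2.2.2.2.2.1 a b h).2
      mono := fun n m a b hn => (O7 k t n hn.pos).2.2.2.2.2.2.1 m a b
      inv := fun n a hn => (O7 k t n hn.pos).2.2.2.2.2.2.2.2.2.1 a
      fin := fun n hn => (O7 k t n hn.pos).2.2.2.2.2.2.2.2.2.2
      rnm := fun N a a' hN h h' hr => O9 k t N hN a a' h h' hr
      psi := fun n hn => (E1 k t n hn.pos hn.dvd).1
      uni := fun n hn => (E1 k t n hn.pos hn.dvd).2.1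
      ray := fun n hn => (E1 k t n hn.pos hn.dvd).2.2.1
      pmu := fun n hn => (E1 k t n hn.pos hn.dvd).2.2.2.1
      down := fun n m hn hm hd τ a h => (E1 k t n hn.pos hn.dvd).2.2.2.2 τ m a h hd hm.dvd
      cyc := fun N τ a hτ hN h => E6 k t τ N a hτ hN.pos hN.dvd h
      sur := fun n a hn ha h => E7 k t n a hn.pos hn.dvd ha h
      gal := fun n H hn h1 h2 h3 h4 => E8 k t n H hn.pos hn.dvd h1 h2 h3 h4 }

end Pool.Agent.DM.PI
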